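import Mathlib
import Pool.Agent.H637R3.UC.Assemble

set_option autoImplicit false
set_option linter.unusedSectionVars false
set_option linter.dupNamespace false

/-!
# Many abundant elements in very dense union-closed families
-/

namespace Pool.Agent.H637R4.Many

open Finset Pool.Agent.H637R3.UC

section fin

variable {α : Type*} [Fintype α] [DecidableEq α]

/-- the abundant elements -/
def ab (F : Finset (Finset α)) : Finset α :=
  univ.filter (fun i => F.card < 2 * (F.filter (fun S => i ∈ S)).card)

theorem card_mem_le (F : Finset (Finset α)) (i : α) :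
    2 * ((F.filter (fun S => i ∈ S)).card : ℝ) ≤ 2 ^ Fintype.card α := by
  have h1 := split_sum (fun _ : Finset α => (1 : ℝ)) i
  have h2 : ((F.filter (fun S => i ∈ S)).card : ℝ) ≤
      ((univ.filter (fun P : Finset α => i ∈ P)).card : ℝ) := by
    exact_mod_cast Finset.card_le_card (Finset.filter_subset_filter _ (Finset.subset_univ F))
  have h3 := card_split (univ : Finset (Finset α)) i
  rw [Finset.card_univ, Fintype.card_finset] at h3
  push_cast at h3
  simp at h1
  linarith

theorem bias_ge (F : Finset (Finset α)) (i : α) :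
    -((2 : ℝ) ^ Fintype.card α - F.card) ≤ bias F i := by
  have h1 := bias_eq F i
  have h2 := card_split F i
  have h3 := card_mem_le F i
  linarith

theorem bias_le (F : Finset (Finset α)) (i : α) : 2 * bias F i ≤ 2 ^ Fintype.card α := by
  rw [bias_eq]
  have h1 := card_notMem_le F i
  have h2 : (0 : ℝ) ≤ (F.filter (fun S => i ∈ S)).card := Nat.cast_nonneg _
  linarith

theorem bias_nonneg_of (F : Finset (Finset α)) (i : α) (h : i ∉ ab F) : 0 ≤ bias F i := by
  unfold ab at h
  simp only [Finset.mem_filter, Finset.mem_univ, true_and, not_lt] at h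
  rw [bias_eq]
  have h1 := card_split F i
  have h2 : (2 : ℝ) * (F.filter (fun S => i ∈ S)).card ≤ F.card := by exact_mod_cast h
  linarith

/-- the number of abundant elements of a very dense family -/
theorem many_fin (k : ℕ) (F : Finset (Finset α)) (hF : UC F) (hne : F ≠ univ)
    (hd : 2 ^ (k + 1) * (2 ^ Fintype.card α - F.card) < 2 ^ Fintype.card α) :
    k ≤ (ab F).card := by
  have hN : (0 : ℝ) < 2 ^ Fintype.card α := npos
  have hlt : F.card < 2 ^ Fintype.card α := by
    have h1 : F.card < Fintype.card (Finset α) := by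
      rcases (Finset.card_le_univ F).lt_or_eq with h | h
      · exact h
      · exact (hne ((Finset.card_eq_iff_eq_univ F).1 h)).elim
    rwa [Fintype.card_finset] at h1
  have hlt' : (F.card : ℝ) < 2 ^ Fintype.card α := by exact_mod_cast hlt
  have hd' : (2 : ℝ) ^ (k + 1) * (2 ^ Fintype.card α - F.card) < 2 ^ Fintype.card α := by
    have h1 : ((2 ^ (k + 1) * (2 ^ Fintype.card α - F.card) : ℕ) : ℝ) <
        ((2 ^ Fintype.card α : ℕ) : ℝ) := by exact_mod_cast hd
    push_cast [Nat.cast_sub hlt.le] at h1
    exact h1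
  have hav : av (ind F) < 1 := by
    rw [av_ind, div_lt_one hN]; exact hlt'
  have hm : (1 - av (ind F)) * 2 ^ (k + 1) < 1 := by
    rw [av_ind]
    have h1 : (1 - (F.card : ℝ) / 2 ^ Fintype.card α) * 2 ^ (k + 1) =
        (2 ^ (k + 1) * (2 ^ Fintype.card α - F.card)) / 2 ^ Fintype.card α := by
      field_simp
    rw [h1, div_lt_one hN]
    exact hd'
  have hsw := sw_dense F hF (k + 1) hav hm
  have h2 : ∀ i, -(1 - av (ind F)) ≤ cf (ind F) {i} := by
    intro i
    rw [cf_single, av_ind, le_div_iff₀ hN]
    have h1 := bias_ge F i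
    have h3 : -(1 - (F.card : ℝ) / 2 ^ Fintype.card α) * 2 ^ Fintype.card α =
        -((2 : ℝ) ^ Fintype.card α - F.card) := by
      field_simp
    rw [h3]; exact h1
  have h4 : ∀ i, i ∉ ab F → 0 ≤ cf (ind F) {i} := by
    intro i hi
    rw [cf_single]
    exact div_nonneg (bias_nonneg_of F i hi) hN.le
  have h5 : -((ab F).card : ℝ) * (1 - av (ind F)) ≤ sw F := by
    unfold sw
    rw [← Finset.sum_add_sum_compl (ab F)]
    have h6 : -((ab F).card : ℝ) * (1 - av (ind F)) ≤ ∑ i ∈ ab F, cf (ind F) {i} := by
      have h7 := Finset.sum_le_sum (s := ab F) (fun i _ => h2 i)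
      rw [Finset.sum_const, nsmul_eq_mul] at h7
      linarith
    have h8 : 0 ≤ ∑ i ∈ (ab F)ᶜ, cf (ind F) {i} :=
      Finset.sum_nonneg (fun i hi => h4 i (by simpa using hi))
    linarith
  have h9 : 0 < 1 - av (ind F) := by linarith
  have h10 : -((ab F).card : ℝ) < 2 - ((k + 1 : ℕ) : ℝ) := by
    have h11 : -((ab F).card : ℝ) * (1 - av (ind F)) < (2 - ((k + 1 : ℕ) : ℝ)) * (1 - av (ind F)) :=
      lt_of_le_of_lt h5 hsw
    exact lt_of_mul_lt_mul_right h11 h9.le
  push_cast at h10
  have h12 : (k : ℝ) < (ab F).card + 1 := by linarith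
  have h13 : k < (ab F).card + 1 := by exact_mod_cast h12
  omega

/-- two abundant elements above density five sixths -/
theorem two_fin (F : Finset (Finset α)) (hF : UC F) (hne : F ≠ univ)
    (hd : 5 * 2 ^ Fintype.card α < 6 * F.card) : 2 ≤ (ab F).card := by
  have hN : (0 : ℝ) < 2 ^ Fintype.card α := npos
  have hlt : F.card < 2 ^ Fintype.card α := by
    have h1 : F.card < Fintype.card (Finset α) := by
      rcases (Finset.card_le_univ F).lt_or_eq with h | h
      · exact h
      · exact (hne ((Finset.card_eq_iff_eq_univ F).1 h)).elim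
    rwa [Fintype.card_finset] at h1
  have hlt' : (F.card : ℝ) < 2 ^ Fintype.card α := by exact_mod_cast hlt
  have hd' : (5 : ℝ) * 2 ^ Fintype.card α < 6 * F.card := by exact_mod_cast hd
  by_contra hcon
  push Not at hcon
  obtain ⟨x, hx⟩ := above_half F hF hne (by omega)
  have hxa : x ∈ ab F := by
    unfold ab; simp only [Finset.mem_filter, Finset.mem_univ, true_and]; exact hx
  have hone : ∀ i, i ≠ x → i ∉ ab F := by
    intro i hi hia
    have h1 : ({i, x} : Finset α) ⊆ ab F := by
      intro y hy
      rcases Finset.mem_insert.1 hy with h | h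
      · rw [h]; exact hia
      · rw [Finset.mem_singleton.1 h]; exact hxa
    have h2 := Finset.card_le_card h1
    rw [Finset.card_pair hi] at h2
    omega
  have hmain := main_ineq F hF
  rw [← Finset.add_sum_erase _ _ (Finset.mem_univ x)] at hmain
  have h3 : 0 ≤ ∑ i ∈ univ.erase x, bias F i * (2 ^ Fintype.card α - 2 * bias F i) := by
    refine Finset.sum_nonneg (fun i hi => ?_)
    have h4 := bias_nonneg_of F i (hone i (Finset.ne_of_mem_erase hi))
    exact mul_nonneg h4 (by linarith [bias_le F i])
  have h5 := bias_ge F x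
  have h6 : bias F x < 0 := by
    rw [bias_eq]
    have h1 := card_split F x
    have h2 : (F.card : ℝ) < 2 * (F.filter (fun S => x ∈ S)).card := by exact_mod_cast hx
    linarith
  have hg : 0 < (2 : ℝ) ^ Fintype.card α - F.card := by linarith
  generalize bias F x = b at *
  generalize (2 : ℝ) ^ Fintype.card α = N at *
  generalize (F.card : ℝ) = f at *
  have h7 : b * (N - 2 * b) ≤ 2 * (N - f) * (N - 2 * f) := by linarith
  have h8 : -(N - f) * (N + 2 * (N - f)) ≤ b * (N - 2 * b) := by nlinarith
  have h9 : -(N - f) * (N + 2 * (N - f)) ≤ 2 * (N - f) * (N - 2 * f) := le_trans h8 h7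
  nlinarith

end fin

section general

variable {α : Type*} [DecidableEq α]

theorem ab_tr (A : Finset (Finset α)) : (ab (tr A)).card ≤
    ((A.sup id).filter (fun x => A.card < 2 * (A.filter (fun S => x ∈ S)).card)).card := by
  refine Finset.card_le_card_of_injOn (fun i => i.1) ?_ ?_
  · intro i hi
    unfold ab at hi
    rw [Finset.mem_coe, Finset.mem_filter] at hi ⊢
    rw [tr_card, tr_filter_card] at hi
    exact ⟨i.2, hi.2⟩
  · intro i _ j _ hij
    exact Subtype.ext hij

theorem many (k : ℕ) (A : Finset (Finset α)) (huc : ∀ X ∈ A, ∀ Y ∈ A, X ∪ Y ∈ A)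
    (hne : A ≠ (A.sup id).powerset)
    (hd : 2 ^ (k + 1) * (2 ^ (A.sup id).card - A.card) < 2 ^ (A.sup id).card) :
    k ≤ ((A.sup id).filter (fun x => A.card < 2 * (A.filter (fun S => x ∈ S)).card)).card :=
  le_trans (many_fin k (tr A) (tr_union A huc) (fun h => hne (tr_eq_univ A h))
    (by rw [card_sub, tr_card]; exact hd)) (ab_tr A)

theorem two (A : Finset (Finset α)) (huc : ∀ X ∈ A, ∀ Y ∈ A, X ∪ Y ∈ A)
    (hne : A ≠ (A.sup id).powerset)
    (hd : 5 * 2 ^ (A.sup id).card < 6 * A.card) :
    2 ≤ ((A.sup id).filter (fun x => A.card < 2 * (A.filter (fun S => x ∈ S)).card)).card :=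
  le_trans (two_fin (tr A) (tr_union A huc) (fun h => hne (tr_eq_univ A h))
    (by rw [card_sub, tr_card]; exact hd)) (ab_tr A)

end general

end Pool.Agent.H637R4.Many
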