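import Mathlib

set_option autoImplicit false

/-!
# All subsets but one singleton
-/

namespace Pool.Agent.H637R4.Many

open Finset

theorem card_pow_mem (s : Finset ℕ) (i : ℕ) (hi : i ∈ s) :
    2 * (s.powerset.filter (fun S => i ∈ S)).card = 2 ^ s.card := by
  have h1 := Finset.card_filter_add_card_filter_not (s := s.powerset) (fun S => i ∈ S)
  have h2 : s.powerset.filter (fun S => ¬ i ∈ S) = (s.erase i).powerset := by
    ext S
    simp only [Finset.mem_filter, Finset.mem_powerset]
    constructor
    · rintro ⟨h, h'⟩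
      exact Finset.subset_erase.2 ⟨h, h'⟩
    · intro h
      exact Finset.subset_erase.1 h
  rw [h2, Finset.card_powerset, Finset.card_powerset, Finset.card_erase_of_mem hi] at h1
  have h3 : 0 < s.card := Finset.card_pos.2 ⟨i, hi⟩
  obtain ⟨m, hm⟩ : ∃ m, s.card = m + 1 := ⟨s.card - 1, by omega⟩
  rw [hm] at h1 ⊢
  simp only [Nat.add_sub_cancel] at h1
  rw [pow_succ] at h1 ⊢
  omega

theorem sharp (k : ℕ) (hk : 1 ≤ k) : ∃ A : Finset (Finset ℕ),
    (∀ X ∈ A, ∀ Y ∈ A, X ∪ Y ∈ A) ∧ A ≠ (A.sup id).powerset ∧
    2 ^ (k + 1) * (2 ^ (A.sup id).card - A.card) = 2 ^ (A.sup id).card ∧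
    ((A.sup id).filter (fun x => A.card < 2 * (A.filter (fun S => x ∈ S)).card)).card = k := by
  have hsup : (((Finset.range (k + 1)).powerset.erase {k}).sup id) = Finset.range (k + 1) := by
    ext x
    rw [Finset.mem_sup]
    constructor
    · rintro ⟨S, hS, hx⟩
      exact Finset.mem_powerset.1 (Finset.mem_of_mem_erase hS) hx
    · intro hx
      refine ⟨Finset.range (k + 1), Finset.mem_erase.2 ⟨?_, by simp⟩, hx⟩
      intro h
      have h1 : 0 ∈ ({k} : Finset ℕ) := h ▸ (by simp)
      rw [Finset.mem_singleton] at h1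
      omega
  have hk1 : ({k} : Finset ℕ) ∈ (Finset.range (k + 1)).powerset := by
    rw [Finset.mem_powerset, Finset.singleton_subset_iff, Finset.mem_range]; omega
  have hcard : ((Finset.range (k + 1)).powerset.erase {k}).card = 2 ^ (k + 1) - 1 := by
    rw [Finset.card_erase_of_mem hk1, Finset.card_powerset, Finset.card_range]
  have hpos : 1 ≤ 2 ^ (k + 1) := Nat.one_le_two_pow
  refine ⟨(Finset.range (k + 1)).powerset.erase {k}, ?_, ?_, ?_, ?_⟩
  · intro X hX Y hY
    rw [Finset.mem_erase, Finset.mem_powerset] at hX hY ⊢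
    refine ⟨?_, Finset.union_subset hX.2 hY.2⟩
    intro h
    have h1 : X ⊆ {k} := h ▸ Finset.subset_union_left
    have h2 : Y ⊆ {k} := h ▸ Finset.subset_union_right
    rcases Finset.subset_singleton_iff.1 h1 with h3 | h3
    · rcases Finset.subset_singleton_iff.1 h2 with h4 | h4
      · rw [h3, h4] at h
        have h5 : k ∈ (∅ ∪ ∅ : Finset ℕ) := h ▸ Finset.mem_singleton_self k
        simp at h5
      · exact hY.1 h4
    · exact hX.1 h3
  · rw [hsup]
    intro h
    have h1 := (Finset.ext_iff.1 h {k}).2 hk1
    exact (Finset.mem_erase.1 h1).1 rfl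
  · rw [hsup, hcard, Finset.card_range]
    have h1 : 2 ^ (k + 1) - (2 ^ (k + 1) - 1) = 1 := by omega
    rw [h1, mul_one]
  · rw [hsup, hcard]
    have h1 : (Finset.range (k + 1)).filter (fun x => 2 ^ (k + 1) - 1 <
        2 * (((Finset.range (k + 1)).powerset.erase {k}).filter (fun S => x ∈ S)).card) =
        Finset.range k := by
      ext x
      rw [Finset.mem_filter, Finset.mem_range, Finset.mem_range]
      rw [Finset.filter_erase]
      constructor
      · rintro ⟨h2, h3⟩
        by_contra hx
        have hxk : x = k := by omega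
        subst hxk
        have h4 : ({x} : Finset ℕ) ∈ (Finset.range (x + 1)).powerset.filter (fun S => x ∈ S) := by
          rw [Finset.mem_filter]; exact ⟨hk1, Finset.mem_singleton_self x⟩
        rw [Finset.card_erase_of_mem h4] at h3
        have h5 := card_pow_mem (Finset.range (x + 1)) x (by simp)
        rw [Finset.card_range] at h5
        omega
      · intro hx
        refine ⟨by omega, ?_⟩
        have h4 : ({k} : Finset ℕ) ∉ (Finset.range (k + 1)).powerset.filter (fun S => x ∈ S) := by
          rw [Finset.mem_filter, Finset.mem_singleton]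
          rintro ⟨_, h⟩
          omega
        rw [Finset.erase_eq_of_notMem h4]
        have h5 := card_pow_mem (Finset.range (k + 1)) x (by simp; omega)
        rw [Finset.card_range] at h5
        omega
    rw [h1, Finset.card_range]

end Pool.Agent.H637R4.Many
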